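import Pool.Agent.Q27.MX.Mix

/-!
# Trees whose edge stabilizers are of different kinds: the theorem
-/

set_option autoImplicit false

namespace Q27.MX

open SimpleGraph
open Pool.Agent.Helper270.Tree
open Q182.Cyl (ClosedA Est InfOrd CorF)
open Q182.De (CylData Bal Al Kz NzG NE GoodG reduce LinDet al_of_linDet)
open Subgroup (Commensurable)
open Subgroup.Commensurable (commensurator commensurator_mem_iff)
open scoped Pointwise commutatorElement

variable {C : ∀ (G : Type) [Group G], Prop} {G V : Type} [Group G] [MulAction G V]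
  {T : SimpleGraph V}

/-- virtually cyclic subgroups -/
def Vc (A : Subgroup G) : Prop := ∃ c ∈ A, (Subgroup.zpowers c).relIndex A ≠ 0

theorem Vc.of_com {A B : Subgroup G} (hA : Vc A) (h : Commensurable A B) : Vc B := by
  obtain ⟨c, hc, hci⟩ := hA
  obtain ⟨n, hn, _, hcn⟩ := Subgroup.exists_pow_mem_of_relIndex_ne_zero h.2 hc
  refine ⟨c ^ n, (Subgroup.mem_inf.1 hcn).1, ?_⟩
  have h1 : Commensurable (Subgroup.zpowers (c ^ n)) (Subgroup.zpowers c) :=
    ⟨Q182.Cyl.zp_pow_index c n hn, by
      rw [Subgroup.relIndex_eq_one.2 (Subgroup.zpowers_le.2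
        (Subgroup.pow_mem _ (Subgroup.mem_zpowers c) n))]
      exact one_ne_zero⟩
  have h2 : Commensurable (Subgroup.zpowers c) A :=
    ⟨hci, by
      rw [Subgroup.relIndex_eq_one.2 (Subgroup.zpowers_le.2 hc)]
      exact one_ne_zero⟩
  exact ((h1.trans h2).trans h).1

/-- the stabilizer of the edge has finite index in its commensurator in the stabilizer of `v`, which
is virtually polycyclic or virtually torsion-free nilpotent -/
def FinType (G : Type) {V : Type} [Group G] [MulAction G V] (v w : V) : Prop :=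
  (Est G v w).relIndex (Cv G v w) ≠ 0 ∧ Vp (Cv G v w)

theorem inf_data {v w : V} {M : Subgroup G} {Y : Set V} [MulAction M Y]
    (hinf : Infinite (Est G v w)) (hD : CylData T (Est G v w) M Y) {x y : Y}
    (hxy : (T.induce Y).Adj x y) : Infinite (Est G x.1 y.1) :=
  Q182.Cyl.infinite_of_le inf_le_right (Q182.Cyl.infinite_inf (hD.com x y hxy) hinf)

/-- **edge stabilizers of two kinds** -/
theorem mix_vc (hC : ClosedA C) (hmet : ∀ (G : Type) [Group G], derivedSeries G 2 = ⊥ → C G)
    (hT : TreeAct G T) (hst : ∀ v : V, C (MulAction.stabilizer G v))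
    (hloc : ∀ v w w' : V, T.Adj v w → T.Adj v w' → Commensurable (Est G v w) (Est G v w') ∨
      Finite ↥(Est G v w ⊓ Est G v w'))
    (h : ∀ v w : V, T.Adj v w → Infinite (Est G v w) → FinType G v w ∨
      (Vc (Est G v w) ∧ ∀ z ∈ Est G v w, InfOrd z →
        (∀ g : G, Bal z g) ∨ Al z (Kz z v) ∨
          ((∀ g : G, g • v = v → Bal z g) ∧ Al z (NzG T z v)) ∨ LinDet z v)) : C G := by
  refine reduce hC hT (Q182.Hv.corF_of_local hT hloc) hst ?_
  intro v w hvw hinf M Y act hD
  by_cases hvc : Vc (Est G v w)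
  · refine cyl_vc hC hmet hst hinf hD hvc ?_
    intro x y hxy z hz hzi
    have hadj : T.Adj x.1 y.1 := hxy
    rcases h x.1 y.1 hadj (inf_data hinf hD hxy) with h1 | ⟨_, h1⟩
    · exact Or.inr (Or.inl (al_of_fin (hvc.of_com (hD.com x y hxy)) h1.1 hz hzi))
    · rcases h1 z hz hzi with h2 | h2 | h2 | h2
      · exact Or.inl h2
      · exact Or.inr (Or.inl h2)
      · exact Or.inr (Or.inr h2)
      · exact Or.inr (Or.inl (al_of_linDet h2))
  · refine cyl_fin hC hmet hD ?_
    intro x y hxy
    have hadj : T.Adj x.1 y.1 := hxy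
    rcases h x.1 y.1 hadj (inf_data hinf hD hxy) with h1 | ⟨h1, _⟩
    · exact h1
    · exact absurd (h1.of_com (hD.com x y hxy).symm) hvc

/-- **edge stabilizers of two kinds, second version** -/
theorem mix_cyc (hC : ClosedA C) (hmet : ∀ (G : Type) [Group G], derivedSeries G 2 = ⊥ → C G)
    (hT : TreeAct G T) (hst : ∀ v : V, C (MulAction.stabilizer G v))
    (hloc : ∀ v w w' : V, T.Adj v w → T.Adj v w' → Commensurable (Est G v w) (Est G v w') ∨
      Finite ↥(Est G v w ⊓ Est G v w'))
    (hcyc : ∀ v w : V, T.Adj v w → Infinite (Est G v w) → Vc (Est G v w) → IsCyclic (Est G v w))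
    (h : ∀ v w : V, T.Adj v w → Infinite (Est G v w) → FinType G v w ∨
      (IsCyclic (Est G v w) ∧ ∀ z ∈ Est G v w, InfOrd z → (∀ g : G, Bal z g) ∨
        Al z (NE T z v))) : C G := by
  have hcy : ∀ {A : Subgroup G}, IsCyclic A → Vc A := by
    intro A hA
    obtain ⟨c, hc⟩ := hA.exists_generator
    refine ⟨c, c.2, ?_⟩
    have h1 : A ≤ Subgroup.zpowers (c : G) := by
      intro y hy
      obtain ⟨n, hn⟩ := hc ⟨y, hy⟩
      exact ⟨n, congrArg Subtype.val hn⟩
    rw [Subgroup.relIndex_eq_one.2 h1]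
    exact one_ne_zero
  refine reduce hC hT (Q182.Hv.corF_of_local hT hloc) hst ?_
  intro v w hvw hinf M Y act hD
  by_cases hvc : Vc (Est G v w)
  · refine cyl_cyc hC hmet hst hinf hD hvc ?_ ?_
    · intro x y hxy
      exact hcyc _ _ hxy (inf_data hinf hD hxy) (hvc.of_com (hD.com x y hxy))
    intro x y hxy z hz hzi
    have hadj : T.Adj x.1 y.1 := hxy
    rcases h x.1 y.1 hadj (inf_data hinf hD hxy) with h1 | ⟨_, h1⟩
    · right
      intro n hn h2
      refine al_of_fin (hvc.of_com (hD.com x y hxy)) h1.1 hz hzi n hn ?_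
      have hle : NE T z x.1 ≤ Kz z x.1 := by
        refine (Subgroup.closure_le _).2 ?_
        rintro g ⟨hgx, u, hxu, hgu, k, hk, hku⟩
        refine ⟨hgx, k, hk, ?_⟩
        have hkx : z ^ k • x.1 = x.1 := by
          have h3 : z ∈ MulAction.stabilizer G x.1 := hz.1
          exact (MulAction.stabilizer G x.1).pow_mem h3 k
        have hinf' : Infinite (Est G x.1 u) := by
          have h4 : Infinite (Subgroup.zpowers (z ^ k)) := by
            rw [← not_finite_iff_infinite]
            intro h5
            obtain ⟨i, hi, h6⟩ := isOfFinOrder_iff_pow_eq_one.1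
              (isOfFinOrder_of_finite (⟨z ^ k, Subgroup.mem_zpowers _⟩ :
                Subgroup.zpowers (z ^ k)))
            exact hzi (k * i) (Nat.mul_pos hk hi) (by
              rw [pow_mul]
              exact congrArg Subtype.val h6)
          exact Q182.Cyl.infinite_of_le (Subgroup.zpowers_le.2 ⟨hkx, hku⟩) h4
        -- the stabilizer of the other edge is commensurable
        have hcomm : Commensurable (Est G x.1 y.1) (Est G x.1 u) := by
          rcases hloc x.1 y.1 u hadj hxu with h4 | h4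
          · exact h4
          · exfalso
            have hzE : z ^ k ∈ Est G x.1 y.1 ⊓ Est G x.1 u :=
              ⟨(Est G x.1 y.1).pow_mem hz k, hkx, hku⟩
            obtain ⟨i, hi, h6⟩ := isOfFinOrder_iff_pow_eq_one.1
              (isOfFinOrder_of_finite (⟨z ^ k, hzE⟩ : ↥(Est G x.1 y.1 ⊓ Est G x.1 u)))
            exact hzi (k * i) (Nat.mul_pos hk hi) (by
              rw [pow_mul]
              exact congrArg Subtype.val h6)
        have hcu : IsCyclic (Est G x.1 u) :=
          hcyc _ _ hxu hinf' ((hvc.of_com (hD.com x y hxy)).of_com hcomm)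
        obtain ⟨c, hc⟩ := hcu.exists_generator
        obtain ⟨i, hi⟩ := Subgroup.mem_zpowers_iff.1 (hc ⟨z ^ k, hkx, hku⟩)
        obtain ⟨j, hj⟩ := Subgroup.mem_zpowers_iff.1 (hc ⟨g, hgx, hgu⟩)
        have hi' : (c : G) ^ i = z ^ k := congrArg Subtype.val hi
        have hj' : (c : G) ^ j = g := congrArg Subtype.val hj
        rw [← hi', ← hj']
        exact ((Commute.refl (c : G)).zpow_zpow j i).eq
      exact Subgroup.commutator_mono hle hle h2
    · exact h1 z hz hzi
  · refine cyl_fin hC hmet hD ?_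
    intro x y hxy
    have hadj : T.Adj x.1 y.1 := hxy
    rcases h x.1 y.1 hadj (inf_data hinf hD hxy) with h1 | ⟨h1, _⟩
    · exact h1
    · exact absurd ((hcy h1).of_com (hD.com x y hxy).symm) hvc

end Q27.MX
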