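import Pool.Agent.Q182.DeFin
import Pool.Agent.Q182.HnFin
import Pool.Agent.Q182.HvCyl
import Pool.Agent.Q27.HT.Cls

/-!
# Trees whose edge stabilizers are of different kinds
-/

set_option autoImplicit false

namespace Q27.MX

open SimpleGraph
open Pool.Agent.Helper270.Tree
open Q182.Cyl (ClosedA Est InfOrd CorF)
open Q182.De (CylData st_data Est_data Est_le_data Bal Al Kz NzG NE Nz CyE GoodG goodG_pow bal_pow
  al_pow bal_mem cyc_main cyc_main2 pow_mem_Est NzG_pow NzG_le reduce LinDet al_of_linDet)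
open Subgroup (Commensurable)
open Subgroup.Commensurable (commensurator commensurator_mem_iff)
open scoped Pointwise commutatorElement

variable {C : ∀ (G : Type) [Group G], Prop} {G V : Type} [Group G] [MulAction G V]
  {T : SimpleGraph V}

section cyl

variable {v w : V} {M : Subgroup G} {Y : Set V} [MulAction M Y]

theorem exists_cyE (hD : CylData T (Est G v w) M Y) {e : G} (he : e ∈ Est G v w) (hei : InfOrd e)
    (hvcE : ∃ c ∈ Est G v w, (Subgroup.zpowers c).relIndex (Est G v w) ≠ 0) :
    ∃ e' : M, (e' : G) = e ∧ CyE (T.induce Y) e' := by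
  have heM : e ∈ M := hD.le he
  have hcomE : Commensurable (Subgroup.zpowers e) (Est G v w) :=
    ⟨Q182.Cyl.zp_index hvcE hei he, by
      rw [Subgroup.relIndex_eq_one.2 (Subgroup.zpowers_le.2 he)]
      exact one_ne_zero⟩
  obtain ⟨e', he'⟩ : ∃ e' : M, (e' : G) = e := ⟨⟨e, heM⟩, rfl⟩
  have hzp : Subgroup.zpowers e' = (Subgroup.zpowers e).subgroupOf M := by
    ext k
    constructor
    · rintro ⟨n, rfl⟩
      refine ⟨n, ?_⟩
      show e ^ n = ((e' ^ n : M) : G)
      rw [Subgroup.coe_zpow, he']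
    · rintro ⟨n, hn⟩
      refine ⟨n, Subtype.ext ?_⟩
      show ((e' ^ n : M) : G) = k
      rw [Subgroup.coe_zpow, he']
      exact hn
  refine ⟨e', he', hD.tree, hD.nb, ?_, ?_⟩
  · intro n hn h
    apply hei n hn
    rw [← he', ← Subgroup.coe_pow, h, Subgroup.coe_one]
  · intro x y hxy
    have h1 := hcomE.trans (hD.com x y hxy)
    rw [hzp, Est_data hD]
    refine ⟨?_, ?_⟩
    · rw [Subgroup.relIndex_subgroupOf (Est_le_data hD hxy)]
      exact h1.1
    · rw [Subgroup.relIndex_subgroupOf (Subgroup.zpowers_le.2 heM)]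
      exact h1.2

/-- cylinders of edges with virtually cyclic stabilizers -/
theorem cyl_vc (hC : ClosedA C) (hmet : ∀ (G : Type) [Group G], derivedSeries G 2 = ⊥ → C G)
    (hst : ∀ v : V, C (MulAction.stabilizer G v)) (hinf : Infinite (Est G v w))
    (hD : CylData T (Est G v w) M Y)
    (hvcE : ∃ c ∈ Est G v w, (Subgroup.zpowers c).relIndex (Est G v w) ≠ 0)
    (hgood : ∀ x y : Y, (T.induce Y).Adj x y → ∀ z ∈ Est G x.1 y.1, InfOrd z →
      (∀ g : G, Bal z g) ∨ GoodG T z x.1) : C M := by
  obtain ⟨e, he, hei⟩ := Q182.Cyl.exists_infOrd hvcE le_rfl hinf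
  obtain ⟨e', he', hE⟩ := exists_cyE hD he hei hvcE
  have hstM := st_data hD hC hst
  by_cases hbal : ∀ g : G, Bal e g
  · -- the balanced case
    refine hC.base.base.of_injective _ _ (Subgroup.topEquiv (G := M)).symm.toMonoidHom
      (Subgroup.topEquiv (G := M)).symm.injective (bal_mem hE hC hstM ⊤ ?_)
    intro g _ m n h
    apply hbal (g : G) m n
    have h1 := congrArg Subtype.val h
    simpa [he'] using h1
  · refine cyc_main hE hC hmet hstM ?_
    intro x
    -- the condition on the vertex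
    obtain ⟨y, hxy⟩ := hD.nb x
    obtain ⟨k, hk, h1⟩ := pow_mem_Est hE hxy
    have h2 : e ^ k ∈ Est G x.1 y.1 := by
      rw [Est_data hD] at h1
      have h3 : ((e' ^ k : M) : G) ∈ Est G x.1 y.1 := h1
      rwa [Subgroup.coe_pow, he'] at h3
    have hgx : GoodG T e x.1 := by
      rcases hgood x y hxy _ h2 (hei.pow hk) with h | h
      · exact absurd (fun g => bal_pow hk (h g)) hbal
      · exact goodG_pow hk h
    have hK : ∀ m : M, m ∈ Kz e' x → (m : G) ∈ Kz e x.1 := by
      rintro m ⟨h3, j, hj, h4⟩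
      refine ⟨?_, j, hj, ?_⟩
      · rw [← hD.smul, h3]
      · have h5 := congrArg Subtype.val h4
        simpa [he'] using h5
    have hal : ∀ (S : Subgroup M) (S' : Subgroup G), (∀ m ∈ S, (m : G) ∈ S') → Al e S' →
        Al e' S := by
      intro S S' hS h n hn h3
      apply h n hn
      have h4 : ((e' ^ n : M) : G) ∈ (⁅S, S⁆).map M.subtype := ⟨_, h3, rfl⟩
      rw [Subgroup.map_commutator, Subgroup.coe_pow, he'] at h4
      have h5 : S.map M.subtype ≤ S' := by
        rintro _ ⟨m, hm, rfl⟩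
        exact hS m hm
      exact Subgroup.commutator_mono h5 h5 h4
    rcases hgx with h | ⟨h3, h4⟩
    · exact Or.inl (hal _ _ hK h)
    · right
      refine ⟨?_, hal _ _ ?_ h4⟩
      · intro g hg m n h5
        have hg' : (g : G) • x.1 = x.1 := by rw [← hD.smul, hg]
        apply h3 (g : G) hg' m n
        have h6 := congrArg Subtype.val h5
        simpa [he'] using h6
      · intro m hm
        have h5 : (m : G) ∈ (Nz (T.induce Y) e' x).map M.subtype := ⟨m, hm, rfl⟩
        rw [Nz, MonoidHom.map_closure] at h5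
        refine Subgroup.closure_mono ?_ h5
        rintro _ ⟨l, ⟨hl, u, hu1, hu2⟩, rfl⟩
        refine ⟨hK l hl, u.1, hu1, ?_, ?_⟩
        · show (l : G) • u.1 = u.1
          rw [← hD.smul, hu2]
        · obtain ⟨j, hj, h6⟩ := pow_mem_Est hE hu1
          refine ⟨j, hj, ?_⟩
          rw [Est_data hD] at h6
          have h7 : ((e' ^ j : M) : G) ∈ Est G x.1 u.1 := h6
          rw [Subgroup.coe_pow, he'] at h7
          exact h7.2

/-- cylinders of edges with cyclic stabilizers -/
theorem cyl_cyc (hC : ClosedA C) (hmet : ∀ (G : Type) [Group G], derivedSeries G 2 = ⊥ → C G)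
    (hst : ∀ v : V, C (MulAction.stabilizer G v)) (hinf : Infinite (Est G v w))
    (hD : CylData T (Est G v w) M Y)
    (hvcE : ∃ c ∈ Est G v w, (Subgroup.zpowers c).relIndex (Est G v w) ≠ 0)
    (hcyc : ∀ x y : Y, (T.induce Y).Adj x y → IsCyclic (Est G x.1 y.1))
    (hgood : ∀ x y : Y, (T.induce Y).Adj x y → ∀ z ∈ Est G x.1 y.1, InfOrd z →
      (∀ g : G, Bal z g) ∨ Al z (NE T z x.1)) : C M := by
  obtain ⟨e, he, hei⟩ := Q182.Cyl.exists_infOrd hvcE le_rfl hinf
  obtain ⟨e', he', hE⟩ := exists_cyE hD he hei hvcE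
  have hstM := st_data hD hC hst
  by_cases hbal : ∀ g : G, Bal e g
  · -- the balanced case
    refine hC.base.base.of_injective _ _ (Subgroup.topEquiv (G := M)).symm.toMonoidHom
      (Subgroup.topEquiv (G := M)).symm.injective (bal_mem hE hC hstM ⊤ ?_)
    intro g _ m n h
    apply hbal (g : G) m n
    have h1 := congrArg Subtype.val h
    simpa [he'] using h1
  · refine cyc_main2 hE hC hmet hstM ?_ ?_
    · intro x y hxy
      have h2 := hcyc x y hxy
      rw [Est_data hD]
      let f : ↥((Est G x.1 y.1).subgroupOf M) →* Est G x.1 y.1 :=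
        MonoidHom.mk' (fun k => ⟨((k : M) : G), k.2⟩) (fun _ _ => rfl)
      refine isCyclic_of_injective f ?_
      intro a b hab
      exact Subtype.ext (Subtype.ext (congrArg (fun u : Est G x.1 y.1 => (u : G)) hab))
    · intro x
      -- the condition on the vertex
      obtain ⟨y, hxy⟩ := hD.nb x
      obtain ⟨k, hk, h1⟩ := pow_mem_Est hE hxy
      have h2 : e ^ k ∈ Est G x.1 y.1 := by
        rw [Est_data hD] at h1
        have h3 : ((e' ^ k : M) : G) ∈ Est G x.1 y.1 := h1
        rwa [Subgroup.coe_pow, he'] at h3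
      have hgx : Al e (NzG T e x.1) := by
        rcases hgood x y hxy _ h2 (hei.pow hk) with h | h
        · exact absurd (fun g => bal_pow hk (h g)) hbal
        · rw [← NzG_pow e x.1 hk]
          refine al_pow (k := k) ?_
          intro n hn h3
          exact h n hn (Subgroup.commutator_mono (NzG_le _ _) (NzG_le _ _) h3)
      have hK : ∀ m : M, m ∈ Kz e' x → (m : G) ∈ Kz e x.1 := by
        rintro m ⟨h3, j, hj, h4⟩
        refine ⟨?_, j, hj, ?_⟩
        · rw [← hD.smul, h3]
        · have h5 := congrArg Subtype.val h4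
          simpa [he'] using h5
      intro n hn h3
      apply hgx n hn
      have h4 : ((e' ^ n : M) : G) ∈ (⁅Nz (T.induce Y) e' x, Nz (T.induce Y) e' x⁆).map M.subtype :=
        ⟨_, h3, rfl⟩
      rw [Subgroup.map_commutator, Subgroup.coe_pow, he'] at h4
      have h5 : (Nz (T.induce Y) e' x).map M.subtype ≤ NzG T e x.1 := by
        rw [Nz, MonoidHom.map_closure]
        refine Subgroup.closure_mono ?_
        rintro _ ⟨l, ⟨hl, u, hu1, hu2⟩, rfl⟩
        refine ⟨hK l hl, u.1, hu1, ?_, ?_⟩
        · show (l : G) • u.1 = u.1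
          rw [← hD.smul, hu2]
        · obtain ⟨j, hj, h6⟩ := pow_mem_Est hE hu1
          refine ⟨j, hj, ?_⟩
          rw [Est_data hD] at h6
          have h7 : ((e' ^ j : M) : G) ∈ Est G x.1 u.1 := h6
          rw [Subgroup.coe_pow, he'] at h7
          exact h7.2
      exact Subgroup.commutator_mono h5 h5 h4

end cyl

/-- virtually polycyclic, or virtually torsion-free nilpotent -/
def Vp (D : Subgroup G) : Prop :=
  ((∀ S ≤ D, S.FG) ∧ ∃ S ≤ D, S.relIndex D ≠ 0 ∧ Group.IsSolvable S) ∨
    ∃ S ≤ D, S.relIndex D ≠ 0 ∧ Group.IsNilpotent S ∧ ∀ a ∈ S, a ≠ 1 → ∀ n : ℕ, 0 < n → a ^ n ≠ 1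

/-- the commensurator of the stabilizer of `{v, w}` in the stabilizer of `v` -/
def Cv (G : Type) {V : Type} [Group G] [MulAction G V] (v w : V) : Subgroup G :=
  MulAction.stabilizer G v ⊓ commensurator (Est G v w)

/-- cylinders of edges whose stabilizers have finite index in their commensurators -/
theorem cyl_fin (hC : ClosedA C) (hmet : ∀ (G : Type) [Group G], derivedSeries G 2 = ⊥ → C G)
    {v w : V} {M : Subgroup G} {Y : Set V} [MulAction M Y] (hD : CylData T (Est G v w) M Y)
    (hfin : ∀ x y : Y, (T.induce Y).Adj x y →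
      (Est G x.1 y.1).relIndex (Cv G x.1 y.1) ≠ 0 ∧ Vp (Cv G x.1 y.1)) : C M := by
  have hCv : ∀ x y : Y, (T.induce Y).Adj x y →
      Cv G x.1 y.1 = (MulAction.stabilizer M x).map M.subtype := by
    intro x y hxy
    have h1 := hD.com x y hxy
    ext g
    constructor
    · rintro ⟨h2, h3⟩
      have h4 : g ∈ M := by
        rw [hD.mem]
        replace h3 : g ∈ commensurator (Est G x.1 y.1) := h3
        rw [commensurator_mem_iff] at h3
        exact (h1.conj (ConjAct.toConjAct g)).trans (h3.trans h1.symm)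
      exact ⟨⟨g, h4⟩, Subtype.ext (by rw [hD.smul]; exact h2), rfl⟩
    · rintro ⟨k, hk, rfl⟩
      refine ⟨?_, ?_⟩
      · show (k : G) • x.1 = x.1
        rw [← hD.smul, show k • x = x from hk]
      · show (k : G) ∈ commensurator (Est G x.1 y.1)
        rw [commensurator_mem_iff]
        have h3 := (hD.mem (k : G)).1 k.2
        exact (h1.conj (ConjAct.toConjAct (k : G))).symm.trans (h3.trans h1)
  have hidx : ∀ x y : Y, (T.induce Y).Adj x y →
      (Est M x y).relIndex (MulAction.stabilizer M x) ≠ 0 := by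
    intro x y hxy
    have h1 := (hfin x y hxy).1
    rw [hCv x y hxy] at h1
    rw [Est_data hD]
    have h2 : ((Est G x.1 y.1).subgroupOf M).map M.subtype = Est G x.1 y.1 := by
      rw [Subgroup.subgroupOf_map_subtype, inf_eq_left]
      exact Est_le_data hD hxy
    rw [← h2, Subgroup.relIndex_map_map_of_injective _ _ M.subtype_injective] at h1
    exact h1
  obtain ⟨x⟩ := hD.tree.isTree.connected.nonempty
  obtain ⟨y, hxy⟩ := hD.nb x
  have hvp := (hfin x y hxy).2
  rw [hCv x y hxy] at hvp
  have hpull : ∀ S ≤ (MulAction.stabilizer M x).map M.subtype, ∃ S' ≤ MulAction.stabilizer M x,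
      S'.map M.subtype = S := by
    intro S hS
    refine ⟨S.comap M.subtype, ?_, ?_⟩
    · intro k hk
      obtain ⟨k', hk', h⟩ := hS hk
      have h1 : k' = k := Subtype.ext h
      rwa [← h1]
    · rw [Subgroup.map_comap_eq, inf_eq_right]
      intro g hg
      obtain ⟨k', _, h⟩ := hS hg
      exact ⟨k', h⟩
  rcases hvp with ⟨h1, S, hS, h2, h3⟩ | ⟨S, hS, h2, h3, h4⟩
  · refine Q182.Hn.fin_poly hC hmet hD.tree hidx x ?_ ?_
    · intro S hS
      have h4 := h1 (S.map M.subtype) (Subgroup.map_mono hS)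
      rw [← Group.fg_iff_subgroup_fg] at h4 ⊢
      exact Group.fg_of_surjective (f := ((S.equivMapOfInjective M.subtype
        M.subtype_injective).symm.toMonoidHom)) (MulEquiv.surjective _)
    · obtain ⟨S', hS', rfl⟩ := hpull S hS
      refine ⟨S', hS', ?_, ?_⟩
      · rw [Subgroup.relIndex_map_map_of_injective _ _ M.subtype_injective] at h2
        exact h2
      · exact Group.isSolvable_of_isSolvable_injective (f := (S'.equivMapOfInjective M.subtype
          M.subtype_injective).toMonoidHom) (MulEquiv.injective _)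
  · obtain ⟨S', hS', rfl⟩ := hpull S hS
    refine Q182.Hn.fin_nilp hC hmet hD.tree hidx x ⟨S', hS', ?_, ?_, ?_⟩
    · rw [Subgroup.relIndex_map_map_of_injective _ _ M.subtype_injective] at h2
      exact h2
    · exact (Group.isNilpotent_congr (S'.equivMapOfInjective M.subtype M.subtype_injective)).2 h3
    · intro a ha ha1 n hn h
      refine h4 (a : G) ⟨a, ha, rfl⟩ (fun h5 => ha1 (Subtype.ext h5)) n hn ?_
      exact congrArg Subtype.val h

/-- edge stabilizers of finite index in the commensurators -/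
theorem al_of_fin {v w : V}
    (hvc : ∃ c ∈ Est G v w, (Subgroup.zpowers c).relIndex (Est G v w) ≠ 0)
    (hfin : (Est G v w).relIndex (Cv G v w) ≠ 0) {z : G} (hz : z ∈ Est G v w) (hzi : InfOrd z) :
    Al z (Kz z v) := by
  have hcom : Commensurable (Subgroup.zpowers z) (Est G v w) :=
    ⟨Q182.Cyl.zp_index hvc hzi hz, by
      rw [Subgroup.relIndex_eq_one.2 (Subgroup.zpowers_le.2 hz)]
      exact one_ne_zero⟩
  have hle : Est G v w ≤ Cv G v w := fun g hg => ⟨hg.1, Q182.De.Est_le_comm hg⟩
  have hdet : Q27.HT.Det (Cv G v w) := by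
    have h1 : ((Subgroup.zpowers z).subgroupOf (Cv G v w)).FiniteIndex := by
      refine ⟨?_⟩
      show (Subgroup.zpowers z).relIndex (Cv G v w) ≠ 0
      exact Subgroup.relIndex_ne_zero_trans hcom.1 hfin
    refine Q27.HT.Det.of_finiteIndex ((Subgroup.zpowers z).subgroupOf (Cv G v w)) ?_
    refine Q27.HT.det_comm ?_
    rintro ⟨a, i, hi⟩ ⟨b, j, hj⟩
    have hi' : z ^ i = (a : G) := hi
    have hj' : z ^ j = (b : G) := hj
    apply Subtype.ext
    apply Subtype.ext
    show (a : G) * b = b * a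
    rw [← hi', ← hj']
    exact ((Commute.refl z).zpow_zpow i j).eq
  have hKle : Kz z v ≤ Cv G v w := by
    rintro g ⟨hg, k, hk, h⟩
    refine ⟨hg, ?_⟩
    show g ∈ commensurator (Est G v w)
    rw [commensurator_mem_iff]
    have h1 : ConjAct.toConjAct g • Subgroup.zpowers (z ^ k) = Subgroup.zpowers (z ^ k) := by
      have h2 : g * z ^ k * g⁻¹ = z ^ k := by rw [h, mul_inv_cancel_right]
      have h3 : (Subgroup.zpowers (z ^ k)).map (MulAut.conj g).toMonoidHom =
          Subgroup.zpowers (z ^ k) := by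
        rw [MonoidHom.map_zpowers]
        exact congrArg Subgroup.zpowers h2
      exact h3
    have h2 : Commensurable (Subgroup.zpowers (z ^ k)) (Est G v w) := by
      refine Commensurable.trans (K := Subgroup.zpowers z) ⟨?_, ?_⟩ hcom
      · exact Q182.Cyl.zp_pow_index z k hk
      · rw [Subgroup.relIndex_eq_one.2 (Subgroup.zpowers_le.2
          (Subgroup.pow_mem _ (Subgroup.mem_zpowers z) k))]
        exact one_ne_zero
    have h3 := h2.conj (ConjAct.toConjAct g)
    rw [h1] at h3
    exact h3.symm.trans h2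
  intro n hn h
  have hzC : z ∈ Cv G v w := hle hz
  refine hdet ⟨z, hzC⟩ (fun m hm h1 => hzi m hm (congrArg Subtype.val h1)) n hn ?_
  have hle2 : Kz z v ≤ (Q27.HT.KC (⟨z, hzC⟩ : Cv G v w)).map (Cv G v w).subtype := by
    rintro g ⟨hg, k, hk, h1⟩
    exact ⟨⟨g, hKle ⟨hg, k, hk, h1⟩⟩, ⟨k, hk, Subtype.ext h1⟩, rfl⟩
  have h2 := Subgroup.commutator_mono hle2 hle2 h
  rw [← Subgroup.map_commutator] at h2
  obtain ⟨y, hy, hy'⟩ := h2
  have h3 : y = (⟨z, hzC⟩ : Cv G v w) ^ n := Subtype.ext hy'
  rwa [← h3]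

end Q27.MX
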