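import Pool.Agent.Q27.MX.Main

/-!
# Trees whose edge stabilizers are of different kinds: peripheral subgroups
-/

set_option autoImplicit false

namespace Q27.MX

open SimpleGraph
open Pool.Agent.Helper270.Tree
open Q182.Cyl (ClosedA Est InfOrd)
open Q182.De (Bal Al Kz NzG LinDet)
open Subgroup (Commensurable)
open Subgroup.Commensurable (commensurator commensurator_mem_iff)
open scoped Pointwise commutatorElement

variable {C : ∀ (G : Type) [Group G], Prop} {G V : Type} [Group G] [MulAction G V]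
  {T : SimpleGraph V}

theorem relIndex_right {H K L : Subgroup G} (h : H.relIndex L ≠ 0) (hKL : K ≤ L) :
    H.relIndex K ≠ 0 := fun h0 => h (Subgroup.relIndex_eq_zero_of_le_right hKL h0)

theorem Vp.mono {A B : Subgroup G} (hA : Vp A) (h : B ≤ A) : Vp B := by
  rcases hA with ⟨h1, S, hS, h2, h3⟩ | ⟨S, hS, h2, h3, h4⟩
  · refine Or.inl ⟨fun S hS => h1 S (hS.trans h), S ⊓ B, inf_le_right, ?_, ?_⟩
    · rw [Subgroup.inf_relIndex_right]
      exact relIndex_right h2 h
    · exact Group.isSolvable_of_isSolvable_injective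
        (f := Subgroup.inclusion (inf_le_left : S ⊓ B ≤ S)) (Subgroup.inclusion_injective _)
  · refine Or.inr ⟨S ⊓ B, inf_le_right, ?_, ?_, fun a ha => h4 a ha.1⟩
    · rw [Subgroup.inf_relIndex_right]
      exact relIndex_right h2 h
    · have h5 : Group.IsNilpotent ((S ⊓ B).subgroupOf S) := Subgroup.isNilpotent _
      exact (Group.isNilpotent_congr
        (Subgroup.subgroupOfEquivOfLe (inf_le_left : S ⊓ B ≤ S))).1 h5

theorem comm_of_vc {A B : Subgroup G} (hA : Vc A) (hB : Vc B) (h : Infinite ↥(A ⊓ B)) :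
    Commensurable A B := by
  obtain ⟨z, hz, hzi⟩ := Q182.Cyl.exists_infOrd hA inf_le_left h
  have h1 : ∀ D : Subgroup G, Vc D → z ∈ D → Commensurable (Subgroup.zpowers z) D := by
    intro D hD hzD
    refine ⟨Q182.Cyl.zp_index hD hzi hzD, ?_⟩
    rw [Subgroup.relIndex_eq_one.2 (Subgroup.zpowers_le.2 hzD)]
    exact one_ne_zero
  exact (h1 A hA hz.1).symm.trans (h1 B hB hz.2)

/-- the condition for edges with virtually cyclic stabilizers -/
def KindV (G : Type) {V : Type} [Group G] [MulAction G V] (T : SimpleGraph V) (v w : V) : Prop :=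
  Vc (Est G v w) ∧ ∀ z ∈ Est G v w, InfOrd z →
    (∀ g : G, Bal z g) ∨ Al z (Kz z v) ∨
      ((∀ g : G, g • v = v → Bal z g) ∧ Al z (NzG T z v))

theorem KindV.four {v w : V} (h : KindV G T v w) : Vc (Est G v w) ∧ ∀ z ∈ Est G v w, InfOrd z →
    (∀ g : G, Bal z g) ∨ Al z (Kz z v) ∨
      ((∀ g : G, g • v = v → Bal z g) ∧ Al z (NzG T z v)) ∨ LinDet z v := by
  refine ⟨h.1, fun z hz hzi => ?_⟩
  rcases h.2 z hz hzi with h1 | h1 | h1
  · exact Or.inl h1
  · exact Or.inr (Or.inl h1)
  · exact Or.inr (Or.inr (Or.inl h1))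

/-- **edge stabilizers of the kinds F and V** -/
theorem mix_fv (hC : ClosedA C) (hmet : ∀ (G : Type) [Group G], derivedSeries G 2 = ⊥ → C G)
    (hT : TreeAct G T) (hst : ∀ v : V, C (MulAction.stabilizer G v))
    (hloc : ∀ v w w' : V, T.Adj v w → T.Adj v w' → Commensurable (Est G v w) (Est G v w') ∨
      Finite ↥(Est G v w ⊓ Est G v w'))
    (h : ∀ v w : V, T.Adj v w → Infinite (Est G v w) → FinType G v w ∨ KindV G T v w) : C G :=
  mix_vc hC hmet hT hst hloc fun v w hw hi => (h v w hw hi).imp id KindV.four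

/-- **peripheral subgroups of the vertex stabilizers** -/
theorem mix_per (hC : ClosedA C) (hmet : ∀ (G : Type) [Group G], derivedSeries G 2 = ⊥ → C G)
    (hT : TreeAct G T) (hst : ∀ v : V, C (MulAction.stabilizer G v)) (P : V → Set (Subgroup G))
    (hP : ∀ v, ∀ A ∈ P v, Vp A)
    (hconj : ∀ v, ∀ A ∈ P v, ∀ g : G, g • v = v → ConjAct.toConjAct g • A ∈ P v)
    (hint : ∀ v, ∀ A ∈ P v, ∀ B ∈ P v, Infinite ↥(A ⊓ B) → A = B)
    (hnorm : ∀ v, ∀ A ∈ P v, ∀ g : G, g • v = v → ConjAct.toConjAct g • A = A → g ∈ A)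
    (hE : ∀ v w : V, T.Adj v w → Infinite (Est G v w) →
      (∃ A ∈ P v, Est G v w ≤ A ∧ (Est G v w).relIndex A ≠ 0) ∨
      ((∀ A ∈ P v, Finite ↥(A ⊓ Est G v w)) ∧ KindV G T v w)) : C G := by
  have hcA : ∀ {E A : Subgroup G}, E ≤ A → E.relIndex A ≠ 0 → Commensurable E A := by
    intro E A h1 h2
    refine ⟨h2, ?_⟩
    rw [Subgroup.relIndex_eq_one.2 h1]
    exact one_ne_zero
  have hfin : ∀ {A B : Subgroup G}, B ≤ A → Finite A → Finite B := by
    intro A B h h1
    exact Finite.of_injective _ (Subgroup.inclusion_injective h)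
  refine mix_fv hC hmet hT hst ?_ ?_
  · intro v w w' hw hw'
    by_cases hi : Infinite ↥(Est G v w ⊓ Est G v w')
    swap
    · exact Or.inr (not_infinite_iff_finite.1 hi)
    refine Or.inl ?_
    have hi1 : Infinite (Est G v w) := Q182.Cyl.infinite_of_le inf_le_left hi
    have hi2 : Infinite (Est G v w') := Q182.Cyl.infinite_of_le inf_le_right hi
    rcases hE v w hw hi1 with ⟨A, hA, h1, h2⟩ | ⟨h1, h2⟩
    · rcases hE v w' hw' hi2 with ⟨B, hB, h3, h4⟩ | ⟨h3, h4⟩
      · have hAB : A = B := hint v A hA B hB (Q182.Cyl.infinite_of_le (inf_le_inf h1 h3) hi)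
        subst hAB
        exact (hcA h1 h2).trans (hcA h3 h4).symm
      · exact absurd (hfin (inf_le_inf_right _ h1) (h3 A hA)) (not_finite_iff_infinite.2 hi)
    · rcases hE v w' hw' hi2 with ⟨B, hB, h3, h4⟩ | ⟨h3, h4⟩
      · refine absurd (hfin ?_ (h1 B hB)) (not_finite_iff_infinite.2 hi)
        exact le_inf (inf_le_right.trans h3) inf_le_left
      · exact comm_of_vc h2.1 h4.1 hi
  · intro v w hw hi
    rcases hE v w hw hi with ⟨A, hA, h1, h2⟩ | ⟨h1, h2⟩
    · left
      have hle : Cv G v w ≤ A := by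
        rintro g ⟨hg, hgc⟩
        replace hgc : g ∈ commensurator (Est G v w) := hgc
        rw [commensurator_mem_iff] at hgc
        refine hnorm v A hA g hg (hint v _ (hconj v A hA g hg) A hA ?_)
        have h3 : Infinite ↥(Est G v w ⊓ ConjAct.toConjAct g • Est G v w) :=
          Q182.Cyl.infinite_inf hgc.symm hi
        refine Q182.Cyl.infinite_of_le ?_ h3
        refine le_inf (inf_le_right.trans ?_) (inf_le_left.trans h1)
        exact Subgroup.map_mono h1
      have hE' : Est G v w ≤ Cv G v w := fun g hg => ⟨hg.1, Q182.De.Est_le_comm hg⟩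
      exact ⟨relIndex_right h2 hle, (hP v A hA).mono hle⟩
    · exact Or.inr h2

end Q27.MX
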